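import Pool.Agent.MQG.StmtsA

/-!
# Squad MQG, row HTE: existence of the operator `U^`
-/

set_option autoImplicit false

namespace Pool.Agent.MQG.H10

open scoped InnerProductSpace InnerProduct Topology ComplexConjugate
open Complex Filter

theorem l2_eq_zero {α : Type} [IsEmpty α] (v : L2 α) : v = 0 := by
  ext c
  exact isEmptyElim c

theorem yop_star (yli : YliStmt) (ι : Type) (M : MU ι) (κ : Type) (U : Op (κ × ι))
    (hU : Adapted M.W U) (x z : L2 κ) (h h' : L2 ι) (f v : ℂ → L2 ι) (hf : Traj M.V f)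
    (hv : Traj M.V v) :
    ⟪tn x (tn h (star (f 0))), Yop M U (tn z (tn h' (star (v 0))))⟫_ℂ =
      ⟪h, h'⟫_ℂ * ⟪tn x (v (-(I / 2))), star U (tn z (f (I / 2)))⟫_ℂ := by
  have ht := total_traj M.V_group 0
  set c := ⟪tn x (v (-(I / 2))), star U (tn z (f (I / 2)))⟫_ℂ with hc
  -- the second vector
  have h1 : ∀ (k : ℂ → L2 ι), Traj M.V k → ∀ h' : L2 ι,
      ⟪tn x (tn (k 0) (star (f 0))), Yop M U (tn z (tn h' (star (v 0))))⟫_ℂ =
        ⟪k 0, h'⟫_ℂ * c := by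
    intro k hk h'
    have h2 : ((innerSL ℂ (tn x (tn (k 0) (star (f 0))))).comp
        (((Yop M U : Op (κ × ι × ι)) : L2 (κ × ι × ι) →L[ℂ] L2 (κ × ι × ι)).comp
          ((emb' (Equiv.refl (κ × ι × ι)) z).comp
            (emb (Equiv.refl (ι × ι)) (star (v 0)))))) = c • innerSL ℂ (k 0) := by
      refine ht.ext ?_
      rintro _ ⟨k', hk', rfl⟩
      change ⟪tn x (tn (k 0) (star (f 0))), Yop M U (tn z (tn (k' 0) (star (v 0))))⟫_ℂ =
        c • ⟪k 0, k' 0⟫_ℂ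
      rw [yli ι M κ U hU x z k k' f v hk hk' hf hv, smul_eq_mul, mul_comm]
    have h3 := DFunLike.congr_fun h2 h'
    change ⟪tn x (tn (k 0) (star (f 0))), Yop M U (tn z (tn h' (star (v 0))))⟫_ℂ =
        c • ⟪k 0, h'⟫_ℂ at h3
    rw [h3, smul_eq_mul, mul_comm]
  -- the first vector
  let A : L2 ι →L[ℂ] L2 (κ × ι × ι) :=
    (emb' (Equiv.refl (κ × ι × ι)) x).comp (emb (Equiv.refl (ι × ι)) (star (f 0)))
  have hA : ∀ h : L2 ι, A h = tn x (tn h (star (f 0))) := fun h => rfl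
  have h4 : (A†) (Yop M U (tn z (tn h' (star (v 0))))) = c • h' := by
    refine ht.ext_inner ?_
    rintro _ ⟨k, hk, rfl⟩
    rw [ContinuousLinearMap.adjoint_inner_right, hA, h1 k hk h', inner_smul_right, mul_comm]
  rw [← hA, ← ContinuousLinearMap.adjoint_inner_right, h4, inner_smul_right, mul_comm]

theorem yop_unitary (ι : Type) (M : MU ι) (κ : Type) (U : Op (κ × ι)) (hU : Adapted M.W U) :
    Yop M U ∈ unitary (Op (κ × ι × ι)) := by
  have h1 : (l12 U : Op (κ × ι × ι)) ∈ unitary (Op (κ × ι × ι)) := l12_unitary hU.unit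
  have h2 : (l23 (cj M.Wt) : Op (κ × ι × ι)) ∈ unitary (Op (κ × ι × ι)) :=
    l23_unitary (cj_unitary M.Wt_unitary)
  exact mul_mem (mul_mem (mul_mem (Unitary.star_mem h1) h2) h1) (Unitary.star_mem h2)

theorem hte (yli : YliStmt) : HteStmt := by
  classical
  intro ι M κ U hU
  rcases isEmpty_or_nonempty ι with hι | hι
  · refine ⟨1, one_mem _, ?_⟩
    intro x z f g _ _
    rw [l2_eq_zero (tn x (star (f 0))), l2_eq_zero (tn x (g (-(I / 2)))), inner_zero_left,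
      inner_zero_left]
  · have hne := hι
    obtain ⟨b⟩ := hne
    set e : L2 ι := lp.single 2 b 1 with he
    have he1 : ⟪e, e⟫_ℂ = 1 := by
      rw [he, lp.inner_single_left]
      simp
    let Uh : Op (κ × ι) :=
      ((emb (e13 : κ × ι × ι ≃ _) e)†) ∘L Yop M U ∘L emb (e13 : κ × ι × ι ≃ _) e
    have hUh : ∀ (x z : L2 κ) (u y : L2 ι), ⟪tn x u, Uh (tn z y)⟫_ℂ =
        ⟪tn x (tn e u), Yop M U (tn z (tn e y))⟫_ℂ := by
      intro x z u y
      change ⟪tn x u, ((emb (e13 : κ × ι × ι ≃ _) e)†) (Yop M U (tl e13 (tn z y) e))⟫_ℂ = _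
      rw [inner_emb_adj, tl_e13, tl_e13]
    have hat : IsHat M.V U Uh := by
      intro x z f g hf hg
      rw [hUh, yop_star yli ι M κ U hU x z e e f g hf hg, he1, one_mul]
    have hY : Yop M U = l13 Uh := by
      have ht : Total {ζ : L2 (κ × ι × ι) | ∃ x ∈ (Set.univ : Set (L2 κ)),
          ∃ h ∈ (Set.univ : Set (L2 ι)), ∃ u ∈ {y : L2 ι | ∃ x ∈ {ξ : L2 ι | ∃ f, Traj M.V f ∧
            ξ = f 0}, y = star x}, ζ = tn x (tn h u)} :=
        Total.tn3 total_univ total_univ (total_star (total_traj M.V_group 0))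
      refine ht.ext_op ht ?_
      rintro _ ⟨x, -, h, -, _, ⟨_, ⟨f, hf, rfl⟩, rfl⟩, rfl⟩ _
        ⟨z, -, h', -, _, ⟨_, ⟨v, hv, rfl⟩, rfl⟩, rfl⟩
      rw [yop_star yli ι M κ U hU x z h h' f v hf hv, inner_l13, hat x z f v hf hv, mul_comm]
    have hYu := Unitary.mem_iff.1 (yop_unitary ι M κ U hU)
    rw [hY] at hYu
    refine ⟨Uh, Unitary.mem_iff.2 ⟨?_, ?_⟩, hat⟩
    · refine leg_injective (e13 : κ × ι × ι ≃ (κ × ι) × ι) ?_
      change (l13 (star Uh * Uh) : Op (κ × ι × ι)) = l13 1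
      rw [l13_mul, l13_star, hYu.1, l13_one]
    · refine leg_injective (e13 : κ × ι × ι ≃ (κ × ι) × ι) ?_
      change (l13 (Uh * star Uh) : Op (κ × ι × ι)) = l13 1
      rw [l13_mul, l13_star, hYu.2, l13_one]

end Pool.Agent.MQG.H10
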