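import Pool.Agent.MQG.StmtsB

/-!
# Squad MQG, row UPA: a unitary whose slices are given by a representation is adapted
-/

set_option autoImplicit false

namespace Pool.Agent.MQG.H10

open scoped InnerProductSpace InnerProduct Topology
open Complex Filter

variable {α β γ κ κ' ι : Type}

theorem continuous_sl_left (U : Op (κ × ι)) (y : L2 ι) : Continuous fun u => sl U u y := by
  let f : L2 ι →+ Op κ :=
    { toFun := fun u => sl U u y
      map_zero' := by
        have h := sl_smul_left U 0 0 y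
        rw [zero_smul, map_zero, zero_smul] at h
        exact h
      map_add' := fun u u' => sl_add_left U u u' y }
  exact AddMonoidHomClass.continuous_of_bound f (‖U‖ * ‖y‖) fun u => by
    refine (norm_sl_le U u y).trans (le_of_eq ?_)
    ring

theorem continuous_sl_right (U : Op (κ × ι)) (u : L2 ι) : Continuous fun y => sl U u y := by
  let f : L2 ι →+ Op κ :=
    { toFun := fun y => sl U u y
      map_zero' := by
        have h := sl_smul_right U 0 u 0
        rw [zero_smul, zero_smul] at h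
        exact h
      map_add' := fun y y' => sl_add_right U u y y' }
  exact AddMonoidHomClass.continuous_of_bound f (‖U‖ * ‖u‖) fun y => by
    refine (norm_sl_le U u y).trans (le_of_eq ?_)
    ring

theorem sl_ext {S T : Op κ} (h : ∀ x z, ⟪x, S z⟫_ℂ = ⟪x, T z⟫_ℂ) : S = T :=
  ContinuousLinearMap.ext fun z => ext_inner_left ℂ fun x => h x z

/-- `sl₂ (l12 T) (u ⊗ u') (y ⊗ y') = ⟪u', y'⟫ sl T u y` -/
theorem sl_l12 (T : Op (κ × ι)) (u y : L2 ι) (u' y' : L2 ι) :
    sl (l12 T : Op (κ × ι × ι)) (tn u u') (tn y y') = ⟪u', y'⟫_ℂ • sl T u y := by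
  refine sl_ext fun x z => ?_
  rw [inner_sl, inner_l12, smul_apply, inner_smul_right, inner_sl]
  ring

/-- the matrix elements of `l12 T` at vectors `ζ₁₃ ⊗ y` -/
theorem inner_l12_e13 (T : Op (κ × ι)) (x : L2 κ) (u u' y : L2 ι) (ζ : L2 (κ × ι)) :
    ⟪tn x (tn u u'), l12 T (tl e13 ζ y)⟫_ℂ = ⟪tn (star (sl T u y) x) u', ζ⟫_ℂ := by
  have h : (innerSL ℂ (tn x (tn u u'))).comp
      (((l12 T : Op (κ × ι × ι)) : L2 (κ × ι × ι) →L[ℂ] L2 (κ × ι × ι)).comp (emb e13 y)) =
      innerSL ℂ (tn (star (sl T u y) x) u') := by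
    refine ext_tn fun a b => ?_
    change ⟪tn x (tn u u'), l12 T (tl e13 (tn a b) y)⟫_ℂ =
      ⟪tn (star (sl T u y) x) u', tn a b⟫_ℂ
    rw [tl_e13, inner_l12, inner_tn, ← inner_sl, ContinuousLinearMap.star_eq_adjoint,
      ContinuousLinearMap.adjoint_inner_left]
  exact DFunLike.congr_fun h ζ

/-- `sl₂ (l12 T * l13 T') (u ⊗ u') (y ⊗ y') = sl T u y * sl T' u' y'` -/
theorem sl_l12_l13 (T T' : Op (κ × ι)) (u y : L2 ι) (u' y' : L2 ι) :
    sl (l12 T * l13 T' : Op (κ × ι × ι)) (tn u u') (tn y y') = sl T u y * sl T' u' y' := by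
  refine sl_ext fun x z => ?_
  rw [inner_sl]
  change ⟪tn x (tn u u'), l12 T (l13 T' (tn z (tn y y')))⟫_ℂ = ⟪x, sl T u y (sl T' u' y' z)⟫_ℂ
  rw [l13_tn, inner_l12_e13, ← inner_sl, ContinuousLinearMap.star_eq_adjoint,
    ContinuousLinearMap.adjoint_inner_left]

/-- conjugation by `l23 W` -/
theorem sl_conj (W : Op (ι × ι)) (X : Op (κ × ι × ι)) (s t : L2 (ι × ι)) :
    sl (l23 W * X * l23 (star W) : Op (κ × ι × ι)) s t = sl X (star W s) (star W t) := by
  refine sl_ext fun x z => ?_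
  rw [inner_sl, inner_sl]
  change ⟪tn x s, l23 W (X (l23 (star W) (tn z t)))⟫_ℂ = _
  rw [l23_tn', ← ContinuousLinearMap.adjoint_inner_left, ← ContinuousLinearMap.star_eq_adjoint,
    ← l23_star, l23_tn']

/-- the graph of `π` is closed -/
theorem closed_graph (U : Op (κ × ι)) (π : Al U →⋆ₙₐ[ℂ] Op κ') :
    IsClosed (Set.range fun c : Al U => ((val c, π c) : Op κ × Op κ')) := by
  have h : Isometry fun c : Al U => ((val c, π c) : Op κ × Op κ') := by
    refine Isometry.of_dist_eq fun a b => ?_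
    rw [Prod.dist_eq]
    have h1 : dist (val a) (val b) = dist a b := by
      rw [dist_eq_norm, dist_eq_norm, ← map_sub, norm_val]
    have h2 : dist (π a) (π b) ≤ dist a b := by
      rw [dist_eq_norm, dist_eq_norm, ← map_sub]
      exact NonUnitalStarAlgHom.norm_apply_le π (a - b)
    change max (dist (val a) (val b)) (dist (π a) (π b)) = _
    rw [h1, max_eq_left h2]
  exact h.isClosedEmbedding.isClosed_range

theorem slice_pair (U : Op (κ × ι)) (U' : Op (κ' × ι)) (π : Al U →⋆ₙₐ[ℂ] Op κ')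
    (hπ : ∀ u y, sl U' u y = π (asl U u y)) (s t : L2 (ι × ι)) :
    ∃ c : Al U, val c = sl (l12 U : Op (κ × ι × ι)) s t ∧
      π c = sl (l12 U' : Op (κ' × ι × ι)) s t := by
  have hG := closed_graph U π
  set G := Set.range fun c : Al U => ((val c, π c) : Op κ × Op κ') with hGdef
  -- the second variable
  have key : ∀ s t : L2 (ι × ι), (sl (l12 U : Op (κ × ι × ι)) s t,
      sl (l12 U' : Op (κ' × ι × ι)) s t) ∈ G := by
    have h1 : ∀ (u u' : L2 ι) (t : L2 (ι × ι)), (sl (l12 U : Op (κ × ι × ι)) (tn u u') t,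
        sl (l12 U' : Op (κ' × ι × ι)) (tn u u') t) ∈ G := by
      intro u u' t
      have hc : IsClosed {t : L2 (ι × ι) | (sl (l12 U : Op (κ × ι × ι)) (tn u u') t,
        sl (l12 U' : Op (κ' × ι × ι)) (tn u u') t) ∈ G} :=
        hG.preimage ((continuous_sl_right _ _).prodMk (continuous_sl_right _ _))
      have hs : (Submodule.span ℂ {ζ : L2 (ι × ι) | ∃ ξ g, ζ = tn ξ g} : Set (L2 (ι × ι))) ⊆
          {t : L2 (ι × ι) | (sl (l12 U : Op (κ × ι × ι)) (tn u u') t,
            sl (l12 U' : Op (κ' × ι × ι)) (tn u u') t) ∈ G} := by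
        intro η hη
        refine Submodule.span_induction (p := fun η _ =>
          (sl (l12 U : Op (κ × ι × ι)) (tn u u') η,
            sl (l12 U' : Op (κ' × ι × ι)) (tn u u') η) ∈ G) ?_ ?_ ?_ ?_ hη
        · rintro _ ⟨y, y', rfl⟩
          rw [sl_l12, sl_l12, hπ]
          refine ⟨⟪u', y'⟫_ℂ • asl U u y, ?_⟩
          change (val (⟪u', y'⟫_ℂ • asl U u y), π (⟪u', y'⟫_ℂ • asl U u y)) = _
          rw [map_smul, map_smul, val_asl]
        · refine ⟨0, ?_⟩
          have e1 : sl (l12 U : Op (κ × ι × ι)) (tn u u') 0 = 0 := by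
            have h := sl_smul_right (l12 U : Op (κ × ι × ι)) 0 (tn u u') 0
            rwa [zero_smul, zero_smul] at h
          have e2 : sl (l12 U' : Op (κ' × ι × ι)) (tn u u') 0 = 0 := by
            have h := sl_smul_right (l12 U' : Op (κ' × ι × ι)) 0 (tn u u') 0
            rwa [zero_smul, zero_smul] at h
          change (val (0 : Al U), π 0) = _
          rw [map_zero, map_zero, e1, e2]
        · rintro a b - - ⟨ca, ha⟩ ⟨cb, hb⟩
          refine ⟨ca + cb, ?_⟩
          obtain ⟨ha1, ha2⟩ := Prod.ext_iff.1 ha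
          obtain ⟨hb1, hb2⟩ := Prod.ext_iff.1 hb
          dsimp only at ha1 ha2 hb1 hb2
          refine Prod.ext ?_ ?_
          · change val (ca + cb) = sl (l12 U : Op (κ × ι × ι)) (tn u u') (a + b)
            rw [map_add, sl_add_right, ← ha1, ← hb1]
          · change π (ca + cb) = sl (l12 U' : Op (κ' × ι × ι)) (tn u u') (a + b)
            rw [map_add, sl_add_right, ← ha2, ← hb2]
        · rintro r a - ⟨ca, ha⟩
          refine ⟨r • ca, ?_⟩
          obtain ⟨ha1, ha2⟩ := Prod.ext_iff.1 ha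
          dsimp only at ha1 ha2
          refine Prod.ext ?_ ?_
          · change val (r • ca) = sl (l12 U : Op (κ × ι × ι)) (tn u u') (r • a)
            rw [map_smul, sl_smul_right, ← ha1]
          · change π (r • ca) = sl (l12 U' : Op (κ' × ι × ι)) (tn u u') (r • a)
            rw [map_smul, sl_smul_right, ← ha2]
      exact hc.closure_subset_iff.2 hs (dense_span_tn t)
    intro s t
    have hc : IsClosed {s : L2 (ι × ι) | (sl (l12 U : Op (κ × ι × ι)) s t,
      sl (l12 U' : Op (κ' × ι × ι)) s t) ∈ G} :=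
      hG.preimage ((continuous_sl_left _ _).prodMk (continuous_sl_left _ _))
    have hs : (Submodule.span ℂ {ζ : L2 (ι × ι) | ∃ ξ g, ζ = tn ξ g} : Set (L2 (ι × ι))) ⊆
        {s : L2 (ι × ι) | (sl (l12 U : Op (κ × ι × ι)) s t,
          sl (l12 U' : Op (κ' × ι × ι)) s t) ∈ G} := by
      intro η hη
      refine Submodule.span_induction (p := fun η _ =>
        (sl (l12 U : Op (κ × ι × ι)) η t, sl (l12 U' : Op (κ' × ι × ι)) η t) ∈ G)
        ?_ ?_ ?_ ?_ hη
      · rintro _ ⟨u, u', rfl⟩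
        exact h1 u u' t
      · refine ⟨0, ?_⟩
        have e1 : sl (l12 U : Op (κ × ι × ι)) 0 t = 0 := by
          have h := sl_smul_left (l12 U : Op (κ × ι × ι)) 0 0 t
          rwa [zero_smul, map_zero, zero_smul] at h
        have e2 : sl (l12 U' : Op (κ' × ι × ι)) 0 t = 0 := by
          have h := sl_smul_left (l12 U' : Op (κ' × ι × ι)) 0 0 t
          rwa [zero_smul, map_zero, zero_smul] at h
        change (val (0 : Al U), π 0) = _
        rw [map_zero, map_zero, e1, e2]
      · rintro a b - - ⟨ca, ha⟩ ⟨cb, hb⟩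
        refine ⟨ca + cb, ?_⟩
        obtain ⟨ha1, ha2⟩ := Prod.ext_iff.1 ha
        obtain ⟨hb1, hb2⟩ := Prod.ext_iff.1 hb
        dsimp only at ha1 ha2 hb1 hb2
        refine Prod.ext ?_ ?_
        · change val (ca + cb) = sl (l12 U : Op (κ × ι × ι)) (a + b) t
          rw [map_add, sl_add_left, ← ha1, ← hb1]
        · change π (ca + cb) = sl (l12 U' : Op (κ' × ι × ι)) (a + b) t
          rw [map_add, sl_add_left, ← ha2, ← hb2]
      · rintro r a - ⟨ca, ha⟩
        refine ⟨(starRingEnd ℂ) r • ca, ?_⟩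
        obtain ⟨ha1, ha2⟩ := Prod.ext_iff.1 ha
        dsimp only at ha1 ha2
        refine Prod.ext ?_ ?_
        · change val ((starRingEnd ℂ) r • ca) = sl (l12 U : Op (κ × ι × ι)) (r • a) t
          rw [map_smul, sl_smul_left, ← ha1]
        · change π ((starRingEnd ℂ) r • ca) = sl (l12 U' : Op (κ' × ι × ι)) (r • a) t
          rw [map_smul, sl_smul_left, ← ha2]
    exact hc.closure_subset_iff.2 hs (dense_span_tn s)
  obtain ⟨c, hc⟩ := key s t
  obtain ⟨h1, h2⟩ := Prod.ext_iff.1 hc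
  exact ⟨c, h1, h2⟩

theorem upa : UpaStmt := by
  intro ι κ κ' W U U' hW hU π hU' hπ
  have hW' := Unitary.mem_iff.1 hW
  have e1 : (l23 W * l23 (star W) : Op (κ × ι × ι)) = 1 := by
    rw [← l23_mul, hW'.2, l23_one]
  have e2 : (l23 (star W) * l23 W : Op (κ' × ι × ι)) = 1 := by
    rw [← l23_mul, hW'.1, l23_one]
  have h1 : (l12 U * l13 U : Op (κ × ι × ι)) = l23 W * l12 U * l23 (star W) := by
    rw [← hU.eq, mul_assoc, e1, mul_one]
  have h2 : (l12 U' * l13 U' : Op (κ' × ι × ι)) = l23 W * l12 U' * l23 (star W) := by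
    refine ext_inner_tn3 fun x u u' z y y' => ?_
    rw [← inner_sl, ← inner_sl, sl_l12_l13, sl_conj]
    obtain ⟨c, hc1, hc2⟩ := slice_pair U U' π hπ (star W (tn u u')) (star W (tn y y'))
    have h3 : asl U u y * asl U u' y' = c := by
      refine val_injective ?_
      rw [map_mul, val_asl, val_asl, hc1, ← sl_conj, ← h1, sl_l12_l13]
    rw [← hc2, ← h3, map_mul, ← hπ, ← hπ]
  refine ⟨hU', ?_⟩
  rw [h2, mul_assoc, e2, mul_one]

end Pool.Agent.MQG.H10
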